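import Mathlib

/-!
# The quadratic bound for the minimum step of a shift of finite type is attained

For every `n ≥ 2` we construct a shift of finite type whose smallest synchronizing deterministic
presentation has exactly `n` vertices and whose minimum step is exactly `n (n - 1) / 2`.

Construction. Enumerate the pairs `{p_t, q_t}`, `0 ≤ t < N = n(n-1)/2`, of distinct vertices. There
is a letter `(i, j)` carried by the single edge `i → j` for all `i, j`, and a letter `t` carried by
the two edges `p_t → p_{t+1}` and `q_t → q_{t+1}` for `t + 1 < N`.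
-/

set_option autoImplicit false

open Filter

namespace Pool.Agent.Results.MP_560fdc_co.QuadraticStep

/-- A presentation with vertex set `V` over the alphabet `A`: a directed graph with labelled edges;
`E p a q` says that there is an edge from `p` to `q` with the label `a`. -/
abbrev Presentation (V A : Type) := V → A → V → Prop

/-- `Walk E p w q`: there is a path labelled by the word `w` from `p` to `q`. -/
def Walk {V A : Type} (E : Presentation V A) : V → List A → V → Prop
  | p, [], q => p = q
  | p, a :: w, q => ∃ r, E p a r ∧ Walk E r w q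

/-- `X_G`: the label sequences of the bi-infinite walks in the graph. -/
def shiftOf {V A : Type} (E : Presentation V A) : Set (ℤ → A) :=
  {x | ∃ p : ℤ → V, ∀ i, E (p i) (x i) (p (i + 1))}

/-- No vertex has two outgoing edges with the same label. -/
def Deterministic {V A : Type} (E : Presentation V A) : Prop :=
  ∀ p a q q', E p a q → E p a q' → q = q'

/-- The word `w` synchronizes to the vertex `q`: at least one path is labelled `w`, and every path
labelled `w` ends at `q`. -/
def SynchronizesTo {V A : Type} (E : Presentation V A) (w : List A) (q : V) : Prop :=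
  (∃ p r, Walk E p w r) ∧ ∀ p r, Walk E p w r → r = q

/-- Synchronizing deterministic presentations: deterministic, and every vertex has a word
synchronizing to it. -/
def SyncDet {V A : Type} (E : Presentation V A) : Prop :=
  Deterministic E ∧ ∀ q, ∃ w, SynchronizesTo E w q

/-- `s(X)`: the least number of vertices of a synchronizing deterministic presentation of `X`. -/
noncomputable def s {A : Type} (X : Set (ℤ → A)) : ℕ :=
  sInf {n : ℕ | ∃ E : Presentation (Fin n) A, SyncDet E ∧ shiftOf E = X}

/-- the word `x_i x_{i+1} ⋯ x_{i+n-1}` -/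
def window {A : Type} (x : ℤ → A) (i : ℤ) (n : ℕ) : List A :=
  (List.range n).map (fun k : ℕ => x (i + (k : ℤ)))

/-- `X` is `M`-step: it is the set of all bi-infinite sequences avoiding some set of words of
length `M + 1`. -/
def IsStep {A : Type} (X : Set (ℤ → A)) (M : ℕ) : Prop :=
  ∃ F : Set (List A), (∀ w ∈ F, w.length = M + 1) ∧ X = {x | ∀ i, window x i (M + 1) ∉ F}

/-- shifts of finite type -/
def IsSFT {A : Type} (X : Set (ℤ → A)) : Prop := ∃ M, IsStep X M

/-- `m(X)`: the minimum step of `X`. -/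
noncomputable def m {A : Type} (X : Set (ℤ → A)) : ℕ := sInf {M : ℕ | IsStep X M}

/-! ### General facts -/

lemma window_length {A : Type} (x : ℤ → A) (i : ℤ) (n : ℕ) : (window x i n).length = n := by
  simp [window]

lemma window_succ_left {A : Type} (x : ℤ → A) (i : ℤ) (n : ℕ) :
    window x i (n + 1) = x i :: window x (i + 1) n := by
  unfold window
  rw [List.range_succ_eq_map, List.map_cons, List.map_map]
  congr 1
  · simp
  · apply List.map_congr_left
    intro k _
    simp only [Function.comp, Nat.cast_succ]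
    congr 1
    ring

lemma window_succ_right {A : Type} (x : ℤ → A) (i : ℤ) (n : ℕ) :
    window x i (n + 1) = window x i n ++ [x (i + n)] := by
  unfold window
  rw [List.range_succ, List.map_append, List.map_singleton]

lemma window_congr {A : Type} {x y : ℤ → A} {i : ℤ} {n : ℕ}
    (h : ∀ k : ℤ, i ≤ k → k < i + n → x k = y k) : window x i n = window y i n := by
  unfold window
  apply List.map_congr_left
  intro k hk
  rw [List.mem_range] at hk
  exact h _ (by omega) (by omega)

lemma walk_append {V A : Type} {E : Presentation V A} {w w' : List A} {p q : V} :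
    Walk E p (w ++ w') q ↔ ∃ r, Walk E p w r ∧ Walk E r w' q := by
  induction w generalizing p with
  | nil => simp [Walk]
  | cons a w ih =>
    simp only [List.cons_append, Walk, ih]
    constructor
    · rintro ⟨u, hu, r, hr, hr'⟩; exact ⟨r, ⟨u, hu, hr⟩, hr'⟩
    · rintro ⟨r, ⟨u, hu, hr⟩, hr'⟩; exact ⟨u, hu, r, hr, hr'⟩

lemma walk_window {V A : Type} {E : Presentation V A} {x : ℤ → A} {p : ℤ → V}
    (h : ∀ i, E (p i) (x i) (p (i + 1))) (i : ℤ) (n : ℕ) :
    Walk E (p i) (window x i n) (p (i + n)) := by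
  induction n generalizing i with
  | zero => simp [window, Walk]
  | succ n ih =>
    rw [window_succ_left]
    refine ⟨p (i + 1), h i, ?_⟩
    have := ih (i + 1)
    rwa [show i + ((n + 1 : ℕ) : ℤ) = i + 1 + n by push_cast; ring]

/-- If every path label of length `N` determines its end vertex, then the shift is `N`-step. -/
lemma isStep_of_sync {V A : Type} {E : Presentation V A} {N : ℕ}
    (hs : ∀ w : List A, w.length = N → ∀ p r p' r', Walk E p w r → Walk E p' w r' → r = r') :
    IsStep (shiftOf E) N := by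
  refine ⟨{w | w.length = N + 1 ∧ ¬ ∃ p r, Walk E p w r}, fun w hw => hw.1, ?_⟩
  ext x
  constructor
  · rintro ⟨p, hp⟩ i ⟨_, h⟩
    exact h ⟨_, _, walk_window hp i (N + 1)⟩
  · intro hx
    have hw : ∀ i, ∃ p r, Walk E p (window x i (N + 1)) r := by
      intro i
      by_contra h
      exact hx i ⟨window_length _ _ _, h⟩
    have hN : ∀ i, ∃ u p, Walk E p (window x (i - N) N) u := by
      intro i
      obtain ⟨p, r, h⟩ := hw (i - N)
      rw [window_succ_right, walk_append] at h
      obtain ⟨u, hu, _⟩ := h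
      exact ⟨u, p, hu⟩
    choose v hv using hN
    refine ⟨v, fun i => ?_⟩
    obtain ⟨p, r, h⟩ := hw (i - N)
    have h1 := h
    rw [window_succ_right, walk_append] at h1
    obtain ⟨u, hu, hu'⟩ := h1
    have hur : E u (x i) r := by
      obtain ⟨r', hr', hr''⟩ := hu'
      rw [show i - (N : ℤ) + N = i by ring] at hr'
      have : r' = r := hr''
      rwa [← this]
    obtain ⟨pi, hpi⟩ := hv i
    have e1 : u = v i := hs _ (window_length _ _ _) _ _ _ _ hu hpi
    rw [window_succ_left] at h
    obtain ⟨p', _, h'⟩ := h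
    obtain ⟨pj, hpj⟩ := hv (i + 1)
    rw [show i + 1 - (N : ℤ) = i - N + 1 by ring] at hpj
    have e2 : r = v (i + 1) := hs _ (window_length _ _ _) _ _ _ _ h' hpj
    rw [← e1, ← e2]
    exact hur

/-! ### The construction -/

section construction

variable {n N : ℕ} (p q : ℕ → Fin n)

/-- The graph: the letter `inl (i, j)` labels only the edge `i → j`; the letter `inr t` labels the
edges `p_t → p_{t+1}` and `q_t → q_{t+1}` (for `t + 1 < N`). -/
def G (N : ℕ) (p q : ℕ → Fin n) : Presentation (Fin n) ((Fin n × Fin n) ⊕ Fin N)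
  | i, Sum.inl e, j => i = e.1 ∧ j = e.2
  | i, Sum.inr t, j => (t : ℕ) + 1 < N ∧
      ((i = p t ∧ j = p (t + 1)) ∨ (i = q t ∧ j = q (t + 1)))

variable {p q}

lemma G_det (hpq : ∀ t < N, p t ≠ q t) : Deterministic (G N p q) := by
  rintro i (e | t) j j' h h'
  · rw [h.2, h'.2]
  · obtain ⟨ht, h⟩ := h
    obtain ⟨_, h'⟩ := h'
    have h3 := hpq t t.isLt
    rcases h with ⟨h1, h2⟩ | ⟨h1, h2⟩ <;> rcases h' with ⟨h1', h2'⟩ | ⟨h1', h2'⟩
    · rw [h2, h2']
    · exact absurd (h1.symm.trans h1') h3
    · exact absurd (h1'.symm.trans h1) h3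
    · rw [h2, h2']

lemma G_syncDet (hpq : ∀ t < N, p t ≠ q t) : SyncDet (G N p q) := by
  refine ⟨G_det hpq, fun i => ⟨[Sum.inl (i, i)], ⟨i, i, i, ⟨rfl, rfl⟩, rfl⟩, ?_⟩⟩
  rintro a b ⟨c, ⟨_, h2⟩, h3⟩
  exact h3.symm.trans h2

/-- `{i, j}` is the pair number `t` -/
def IsPair (p q : ℕ → Fin n) (t : ℕ) (i j : Fin n) : Prop :=
  (i = p t ∧ j = q t) ∨ (i = q t ∧ j = p t)

lemma isPair_ne (hpq : ∀ t < N, p t ≠ q t) {t : ℕ} (ht : t < N) {i j : Fin n}
    (h : IsPair p q t i j) : i ≠ j := by
  rintro rfl
  rcases h with ⟨e1, e2⟩ | ⟨e1, e2⟩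
  · exact hpq t ht (e1.symm.trans e2)
  · exact hpq t ht (e2.symm.trans e1)

lemma G_step (hpq : ∀ t < N, p t ≠ q t)
    (hinj : ∀ t < N, ∀ t' < N, ∀ i j, IsPair p q t i j → IsPair p q t' i j → t = t')
    (w : List ((Fin n × Fin n) ⊕ Fin N)) :
    ∀ (t : ℕ) (i j i' j' : Fin n), t < N → IsPair p q t i j → Walk (G N p q) i w i' →
      Walk (G N p q) j w j' → i' ≠ j' → t + w.length < N := by
  induction w with
  | nil =>
    intro t i j i' j' ht _ _ _ _
    simpa using ht
  | cons a w ih =>
    intro t i j i' j' ht hp h1 h2 hne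
    obtain ⟨u, hu, h1⟩ := h1
    obtain ⟨v, hv, h2⟩ := h2
    have hij : i ≠ j := isPair_ne hpq ht hp
    rcases a with e | t'
    · exact absurd (hu.1.trans hv.1.symm) hij
    · obtain ⟨ht', hu⟩ := hu
      obtain ⟨_, hv⟩ := hv
      have key : IsPair p q t' i j ∧ IsPair p q (t' + 1) u v := by
        rcases hu with ⟨a1, a2⟩ | ⟨a1, a2⟩ <;> rcases hv with ⟨b1, b2⟩ | ⟨b1, b2⟩
        · exact absurd (a1.trans b1.symm) hij
        · exact ⟨Or.inl ⟨a1, b1⟩, Or.inl ⟨a2, b2⟩⟩
        · exact ⟨Or.inr ⟨a1, b1⟩, Or.inr ⟨a2, b2⟩⟩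
        · exact absurd (a1.trans b1.symm) hij
      have htt : t = t' := hinj t ht t' t'.isLt i j hp key.1
      subst htt
      have := ih (t' + 1) u v i' j' ht' key.2 h1 h2 hne
      simp only [List.length_cons]
      omega

lemma walk_det {V A : Type} {E : Presentation V A} (hE : Deterministic E) (w : List A) :
    ∀ i j j' : V, Walk E i w j → Walk E i w j' → j = j' := by
  induction w with
  | nil => intro i j j' h h'; exact h.symm.trans h'
  | cons a w ih =>
    rintro i j j' ⟨u, hu, h⟩ ⟨u', hu', h'⟩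
    have : u = u' := hE _ _ _ _ hu hu'
    subst this
    exact ih u j j' h h'

lemma G_isStep (hpq : ∀ t < N, p t ≠ q t)
    (hinj : ∀ t < N, ∀ t' < N, ∀ i j, IsPair p q t i j → IsPair p q t' i j → t = t')
    (hcov : ∀ i j : Fin n, i ≠ j → ∃ t < N, IsPair p q t i j) :
    IsStep (shiftOf (G N p q)) N := by
  apply isStep_of_sync
  intro w hw a r a' r' h h'
  by_contra hne
  have haa : a ≠ a' := by
    rintro rfl
    exact hne (walk_det (G_det hpq) w _ _ _ h h')
  obtain ⟨t, ht, hp⟩ := hcov a a' haa
  have := G_step hpq hinj w t a a' r r' ht hp h h' hne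
  omega

/-- a fixed loop -/
lemma loop_mem (i : Fin n) :
    (fun _ => Sum.inl (i, i)) ∈ shiftOf (G N p q) :=
  ⟨fun _ => i, fun _ => ⟨rfl, rfl⟩⟩

/-- the sequence: loop at `a`, then the letters `0, 1, …, N - 2`, then loop at `b` -/
def zz (N : ℕ) (a b : Fin n) : ℤ → ((Fin n × Fin n) ⊕ Fin N) := fun k =>
  if k < 0 then Sum.inl (a, a)
  else if h : k.toNat + 1 < N then Sum.inr ⟨k.toNat, by omega⟩
  else Sum.inl (b, b)

lemma zz_neg {a b : Fin n} {k : ℤ} (h : k < 0) : zz N a b k = Sum.inl (a, a) := by
  simp [zz, h]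

lemma zz_mid {a b : Fin n} {k : ℕ} (h : k + 1 < N) :
    zz N a b k = Sum.inr ⟨k, by omega⟩ := by
  unfold zz
  rw [if_neg (by omega), dif_pos (by simpa using h)]
  simp

lemma zz_right {a b : Fin n} {k : ℤ} (h0 : 0 ≤ k) (h : (N : ℤ) ≤ k + 1) :
    zz N a b k = Sum.inl (b, b) := by
  unfold zz
  rw [if_neg (by omega), dif_neg (by omega)]

lemma zz_mem (hN : 0 < N) (f : ℕ → Fin n) (hf : f = p ∨ f = q) :
    zz N (f 0) (f (N - 1)) ∈ shiftOf (G N p q) := by
  refine ⟨fun k => if k < 0 then f 0 else if k.toNat + 1 < N then f k.toNat else f (N - 1),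
    fun k => ?_⟩
  rcases lt_or_ge k 0 with hk | hk
  · rw [zz_neg hk]
    refine ⟨by simp only [if_pos hk], ?_⟩
    simp only
    rcases lt_or_ge (k + 1) 0 with hk1 | hk1
    · rw [if_pos hk1]
    · have : k + 1 = 0 := by omega
      rw [this, if_neg (lt_irrefl _)]
      split_ifs with h1
      · simp
      · simp at h1
        congr 1
        omega
  · obtain ⟨k, rfl⟩ := Int.eq_ofNat_of_zero_le hk
    have e1 : ((k : ℤ)).toNat = k := Int.toNat_natCast k
    have e2 : ((k : ℤ) + 1).toNat = k + 1 := by omega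
    rcases lt_or_ge (k + 1) N with h1 | h1
    · rw [zz_mid h1]
      refine ⟨h1, ?_⟩
      simp only [e1, e2]
      rw [if_neg (by omega), if_pos h1, if_neg (by omega)]
      have e3 : (if k + 1 + 1 < N then f (k + 1) else f (N - 1)) = f (k + 1) := by
        split_ifs with h2
        · rfl
        · congr 1; omega
      rw [e3]
      rcases hf with rfl | rfl
      · exact Or.inl ⟨rfl, rfl⟩
      · exact Or.inr ⟨rfl, rfl⟩
    · rw [zz_right (by omega) (by omega)]
      simp only [e1, e2]
      rw [if_neg (by omega), if_neg (by omega), if_neg (by omega), if_neg (by omega)]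
      exact ⟨rfl, rfl⟩

lemma zz_not_mem (hN : 0 < N) (hpq : ∀ t < N, p t ≠ q t) :
    zz N (p 0) (q (N - 1)) ∉ shiftOf (G N p q) := by
  rintro ⟨v, hv⟩
  have h0 : v 0 = p 0 := by
    have := hv (-1)
    rw [zz_neg (by norm_num)] at this
    exact this.2
  have hk : ∀ k : ℕ, k < N → v k = p k := by
    intro k
    induction k with
    | zero => intro _; exact h0
    | succ k ih =>
      intro hk
      have h1 := ih (by omega)
      have h2 := hv k
      rw [zz_mid hk, h1] at h2
      obtain ⟨_, h2⟩ := h2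
      simp only at h2
      rcases h2 with ⟨_, h3⟩ | ⟨h3, _⟩
      · push_cast
        exact h3
      · exact absurd h3 (hpq k (by omega))
  have h1 := hk (N - 1) (by omega)
  have h2 := hv ((N - 1 : ℕ) : ℤ)
  rw [zz_right (by omega) (by omega), h1] at h2
  exact hpq (N - 1) (by omega) h2.1

lemma not_isStep (hpq : ∀ t < N, p t ≠ q t) {M : ℕ} (hM : M < N) :
    ¬ IsStep (shiftOf (G N p q)) M := by
  rintro ⟨F, hF, hX⟩
  have hN : 0 < N := by omega
  apply zz_not_mem hN hpq
  have h1 := zz_mem (q := q) hN p (Or.inl rfl)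
  have h2 := zz_mem (p := p) hN q (Or.inr rfl)
  rw [hX] at h1 h2 ⊢
  intro i
  rcases lt_or_ge i 0 with hi | hi
  · have : window (zz N (p 0) (q (N - 1))) i (M + 1) =
        window (zz N (p 0) (p (N - 1))) i (M + 1) := by
      apply window_congr
      intro k hk1 hk2
      rcases lt_or_ge k 0 with hk | hk
      · rw [zz_neg hk, zz_neg hk]
      · obtain ⟨k, rfl⟩ := Int.eq_ofNat_of_zero_le hk
        rw [zz_mid (by omega), zz_mid (by omega)]
    rw [this]
    exact h1 i
  · have : window (zz N (p 0) (q (N - 1))) i (M + 1) =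
        window (zz N (q 0) (q (N - 1))) i (M + 1) := by
      apply window_congr
      intro k hk1 hk2
      obtain ⟨k, rfl⟩ := Int.eq_ofNat_of_zero_le (by omega : 0 ≤ k)
      rcases lt_or_ge (k + 1) N with h | h
      · rw [zz_mid h, zz_mid h]
      · rw [zz_right (by omega) (by omega), zz_right (by omega) (by omega)]
    rw [this]
    exact h2 i

lemma m_eq (hpq : ∀ t < N, p t ≠ q t)
    (hinj : ∀ t < N, ∀ t' < N, ∀ i j, IsPair p q t i j → IsPair p q t' i j → t = t')
    (hcov : ∀ i j : Fin n, i ≠ j → ∃ t < N, IsPair p q t i j) :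
    m (shiftOf (G N p q)) = N := by
  apply le_antisymm
  · exact Nat.sInf_le (G_isStep hpq hinj hcov)
  · apply le_csInf ⟨N, G_isStep hpq hinj hcov⟩
    intro M hM
    by_contra h
    exact not_isStep hpq (not_le.mp h) hM

lemma s_eq (hpq : ∀ t < N, p t ≠ q t) : s (shiftOf (G N p q)) = n := by
  have hmem : n ∈ {n' : ℕ | ∃ E : Presentation (Fin n') ((Fin n × Fin n) ⊕ Fin N),
      SyncDet E ∧ shiftOf E = shiftOf (G N p q)} := ⟨G N p q, G_syncDet hpq, rfl⟩
  unfold s
  apply le_antisymm
  · exact Nat.sInf_le hmem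
  · apply le_csInf ⟨n, hmem⟩
    rintro k ⟨E, _, hE⟩
    have h1 : ∀ i : Fin n, ∃ v : ℤ → Fin k, ∀ t, E (v t) (Sum.inl (i, i)) (v (t + 1)) := by
      intro i
      have := loop_mem (N := N) (p := p) (q := q) i
      rw [← hE] at this
      exact this
    choose v hv using h1
    have hinj : Function.Injective (fun i => v i 0) := by
      intro i j hij
      simp only at hij
      by_contra hne
      have hz : (fun t : ℤ => if t < 0 then (Sum.inl (i, i) : (Fin n × Fin n) ⊕ Fin N)
          else Sum.inl (j, j)) ∈ shiftOf E := by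
        refine ⟨fun t => if t < 0 then v i t else v j t, fun t => ?_⟩
        simp only
        rcases lt_or_ge t 0 with ht | ht
        · rw [if_pos ht, if_pos ht]
          have h3 := hv i t
          rcases lt_or_ge (t + 1) 0 with ht1 | ht1
          · rwa [if_pos ht1]
          · rw [if_neg (by omega)]
            have h4 : t + 1 = 0 := by omega
            rw [h4] at h3 ⊢
            rwa [← hij]
        · rw [if_neg (by omega), if_neg (by omega), if_neg (by omega)]
          exact hv j t
      rw [hE] at hz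
      obtain ⟨u, hu⟩ := hz
      have h5 := hu (-1)
      have h6 := hu 0
      simp only at h5 h6
      rw [if_pos (by norm_num)] at h5
      rw [if_neg (by norm_num)] at h6
      have h7 : u (-1 + 1) = i := h5.2
      have h8 : u 0 = j := h6.1
      rw [show (-1 : ℤ) + 1 = 0 by norm_num] at h7
      exact hne (h7.symm.trans h8)
    have := Fintype.card_le_of_injective _ hinj
    simpa using this

end construction

/-- For every `n ≥ 2` there is a shift of finite type whose smallest synchronizing deterministic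
presentation has `n` vertices and whose minimum step is `n (n - 1) / 2`. -/
theorem exact (n : ℕ) (hn : 2 ≤ n) : ∃ (A : Type) (_ : Finite A) (X : Set (ℤ → A)),
    IsSFT X ∧ s X = n ∧ m X = n.choose 2 := by
  have hcard : (Finset.powersetCard 2 (Finset.univ : Finset (Fin n))).card = n.choose 2 := by
    rw [Finset.card_powersetCard, Finset.card_univ, Fintype.card_fin]
  obtain ⟨N, hN⟩ : ∃ N, N = n.choose 2 := ⟨_, rfl⟩
  rw [← hN] at hcard ⊢
  let σ := (Finset.equivFinOfCardEq hcard)
  have hex : ∀ t : Fin N, ∃ a b : Fin n, a ≠ b ∧ ((σ.symm t : Finset (Fin n)) = {a, b}) := by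
    intro t
    have h1 := (σ.symm t).2
    rw [Finset.mem_powersetCard] at h1
    exact Finset.card_eq_two.mp h1.2
  choose a b hab hσ using hex
  let d : Fin n := ⟨0, by omega⟩
  let p : ℕ → Fin n := fun t => if h : t < N then a ⟨t, h⟩ else d
  let q : ℕ → Fin n := fun t => if h : t < N then b ⟨t, h⟩ else d
  have hp : ∀ t (h : t < N), p t = a ⟨t, h⟩ := fun t h => dif_pos h
  have hq : ∀ t (h : t < N), q t = b ⟨t, h⟩ := fun t h => dif_pos h
  have hpq : ∀ t < N, p t ≠ q t := by
    intro t ht
    rw [hp t ht, hq t ht]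
    exact hab _
  have hset : ∀ t (ht : t < N) i j, IsPair p q t i j →
      ((σ.symm ⟨t, ht⟩ : _) : Finset (Fin n)) = {i, j} := by
    intro t ht i j h
    rw [hσ]
    unfold IsPair at h
    rw [hp t ht, hq t ht] at h
    rcases h with ⟨h1, h2⟩ | ⟨h1, h2⟩
    · rw [h1, h2]
    · rw [h1, h2, Finset.pair_comm]
  have hinj : ∀ t < N, ∀ t' < N, ∀ i j, IsPair p q t i j → IsPair p q t' i j → t = t' := by
    intro t ht t' ht' i j h h'
    have e : σ.symm ⟨t, ht⟩ = σ.symm ⟨t', ht'⟩ :=
      Subtype.ext ((hset t ht i j h).trans (hset t' ht' i j h').symm)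
    have := σ.symm.injective e
    simpa using this
  have hcov : ∀ i j : Fin n, i ≠ j → ∃ t < N, IsPair p q t i j := by
    intro i j hij
    have hmem : ({i, j} : Finset (Fin n)) ∈ Finset.powersetCard 2 Finset.univ := by
      rw [Finset.mem_powersetCard]
      exact ⟨Finset.subset_univ _, Finset.card_pair hij⟩
    obtain ⟨t, ht⟩ : ∃ t : Fin N, t = σ ⟨{i, j}, hmem⟩ := ⟨_, rfl⟩
    refine ⟨t, t.isLt, ?_⟩
    have h1 : (σ.symm t : Finset (Fin n)) = {i, j} := by rw [ht, Equiv.symm_apply_apply]
    rw [hσ] at h1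
    unfold IsPair
    rw [hp t t.isLt, hq t t.isLt]
    simp only [Fin.eta]
    have hi : i ∈ ({a t, b t} : Finset (Fin n)) := by rw [h1]; simp
    have hj : j ∈ ({a t, b t} : Finset (Fin n)) := by rw [h1]; simp
    rw [Finset.mem_insert, Finset.mem_singleton] at hi hj
    rcases hi with hi | hi <;> rcases hj with hj | hj
    · exact absurd (hi.trans hj.symm) hij
    · exact Or.inl ⟨hi, hj⟩
    · exact Or.inr ⟨hi, hj⟩
    · exact absurd (hi.trans hj.symm) hij
  exact ⟨(Fin n × Fin n) ⊕ Fin N, inferInstance, shiftOf (G N p q), ⟨N, G_isStep hpq hinj hcov⟩,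
    s_eq hpq, m_eq hpq hinj hcov⟩

/-- **The quadratic bound is tight.** For every `n ≥ 2` there is a shift of finite type `X` (over
some finite alphabet) with `s(X) = n` and `m(X) = n (n - 1) / 2`. In particular there are a constant
`c > 0` and shifts of finite type `X_1, X_2, …` with `s(X_k) → ∞` and `m(X_k) ≥ c s(X_k)^2`. -/
theorem result :
    (∀ n : ℕ, 2 ≤ n → ∃ (A : Type) (_ : Finite A) (X : Set (ℤ → A)),
      IsSFT X ∧ s X = n ∧ m X = n * (n - 1) / 2) ∧
    ∃ c : ℝ, 0 < c ∧ ∃ (A : ℕ → Type) (_ : ∀ k, Finite (A k)) (X : ∀ k, Set (ℤ → A k)),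
      (∀ k, IsSFT (X k)) ∧ Tendsto (fun k => s (X k)) atTop atTop ∧
      ∀ k, c * (s (X k) : ℝ) ^ 2 ≤ (m (X k) : ℝ) := by
  refine ⟨fun n hn => ?_, 1 / 4, by norm_num, ?_⟩
  · obtain ⟨A, hA, X, h1, h2, h3⟩ := exact n hn
    exact ⟨A, hA, X, h1, h2, by rw [h3, Nat.choose_two_right]⟩
  · choose A hA X h1 h2 h3 using fun k : ℕ => exact (k + 2) (by omega)
    refine ⟨A, hA, X, h1, ?_, ?_⟩
    · have : (fun k => s (X k)) = fun k => k + 2 := funext h2
      rw [this]
      exact tendsto_add_atTop_nat 2
    · intro k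
      rw [h2, h3, Nat.cast_choose_two]
      push_cast
      have hk : (0 : ℝ) ≤ k := Nat.cast_nonneg k
      nlinarith

end Pool.Agent.Results.MP_560fdc_co.QuadraticStep
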